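import Mathlib

set_option autoImplicit false

namespace Pool.Agent.Results.MP_9bbf37_lc.Formula

open Finset

variable {P : Type} [DecidableEq P]

/-- a deterministic paging algorithm started from the memory contents `M`: `mem σ t` is the
memory after the first `t` requests of the sequence `σ` have been served -/
structure Alg (M : Finset P) where
  mem : List P → ℕ → Finset P
  init : ∀ σ, mem σ 0 = M
  hit : ∀ σ t p, σ[t]? = some p → p ∈ mem σ t → mem σ (t + 1) = mem σ t
  fault : ∀ σ t p, σ[t]? = some p → p ∉ mem σ t →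
    ∃ e ∈ mem σ t, mem σ (t + 1) = insert p ((mem σ t).erase e)

variable {M : Finset P}

/-- lookahead `i`: the memory after `t` requests depends only on the first `t + i` requests -/
def Look (i : ℕ) (A : Alg M) : Prop :=
  ∀ σ τ t, σ.take (t + i) = τ.take (t + i) → A.mem σ t = A.mem τ t

/-- the request number `t` is a fault -/
def Flt (A : Alg M) (σ : List P) (t : ℕ) : Prop := ∃ p, σ[t]? = some p ∧ p ∉ A.mem σ t

open Classical in
/-- the number of faults -/
noncomputable def cost (A : Alg M) (σ : List P) : ℕ := Nat.count (Flt A σ) σ.length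

noncomputable def ratio (A B : Alg M) : EReal :=
  sInf {x | ∃ c : ℝ, x = c ∧ ∃ b : ℝ, ∀ σ, (cost A σ : ℝ) ≤ c * cost B σ + b}

/-- the comparative ratio of lookahead `i` against lookahead `l` -/
noncomputable def comp (M : Finset P) (i l : ℕ) : EReal :=
  ⨆ B : {B : Alg M // Look l B}, ⨅ A : {A : Alg M // Look i A}, ratio A.1 B.1

theorem req_mem (A : Alg M) {σ : List P} {t : ℕ} {p : P} (h : σ[t]? = some p) :
    p ∈ A.mem σ (t + 1) := by
  by_cases e : p ∈ A.mem σ t
  · rwa [A.hit σ t p h e]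
  · obtain ⟨z, -, hz⟩ := A.fault σ t p h e
    simp [hz]

theorem card_mem (A : Alg M) (σ : List P) {t : ℕ} (h : t ≤ σ.length) :
    (A.mem σ t).card = M.card := by
  induction t with
  | zero => rw [A.init]
  | succ t ih =>
    have hp : σ[t]? = some σ[t] := List.getElem?_eq_getElem h
    by_cases e : σ[t] ∈ A.mem σ t
    · rw [A.hit σ t _ hp e, ih (by omega)]
    · obtain ⟨z, z1, hz⟩ := A.fault σ t _ hp e
      rw [hz, card_insert_of_notMem (by simp [e]), card_erase_add_one z1, ih (by omega)]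

theorem mem_sub (A : Alg M) {σ : List P} {t : ℕ} {p : P} (h : σ[t]? = some p) :
    A.mem σ (t + 1) ⊆ insert p (A.mem σ t) := by
  by_cases e : p ∈ A.mem σ t
  · rw [A.hit σ t p h e]; exact subset_insert _ _
  · obtain ⟨z, -, hz⟩ := A.fault σ t p h e
    rw [hz]; exact insert_subset_insert _ (erase_subset _ _)

theorem take_get {σ τ : List P} {n t : ℕ} (h : σ.take n = τ.take n) (ht : t < n) :
    σ[t]? = τ[t]? := by
  rw [← List.getElem?_take_of_lt ht, h, List.getElem?_take_of_lt ht]

theorem take_le {σ τ : List P} {n m : ℕ} (h : σ.take n = τ.take n) (ht : m ≤ n) :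
    σ.take m = τ.take m := by
  have := congrArg (List.take m) h
  rwa [List.take_take, List.take_take, min_eq_left ht] at this

def run (M : Finset P) (ev : List P → ℕ → Finset P → P) (σ : List P) : ℕ → Finset P
  | 0 => M
  | t + 1 => match σ[t]? with
    | none => run M ev σ t
    | some p => if p ∈ run M ev σ t then run M ev σ t
      else insert p ((run M ev σ t).erase (ev σ t (run M ev σ t)))

theorem exists_alg (hM : M.Nonempty) (i : ℕ) (ev : List P → ℕ → Finset P → P)
    (h1 : ∀ σ t S, S.Nonempty → ev σ t S ∈ S)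
    (h2 : ∀ σ τ t S, σ.take (t + 1 + i) = τ.take (t + 1 + i) → ev σ t S = ev τ t S) :
    ∃ A : Alg M, Look i A ∧ ∀ σ t p, σ[t]? = some p → p ∉ A.mem σ t →
      A.mem σ (t + 1) = insert p ((A.mem σ t).erase (ev σ t (A.mem σ t))) := by
  have ne : ∀ σ t, (run M ev σ t).Nonempty := by
    intro σ t
    induction t with
    | zero => exact hM
    | succ t ih =>
      rw [run]
      split
      · exact ih
      · split_ifs
        · exact ih
        · exact insert_nonempty _ _
  have f : ∀ σ t p, σ[t]? = some p → p ∉ run M ev σ t →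
      run M ev σ (t + 1) = insert p ((run M ev σ t).erase (ev σ t (run M ev σ t))) :=
    fun σ t p h e => by rw [run, h]; simp [e]
  refine ⟨⟨run M ev, fun _ => rfl, fun σ t p h e => by rw [run, h]; simp [e],
    fun σ t p h e => ⟨_, h1 σ t _ (ne σ t), f σ t p h e⟩⟩, fun σ τ t h => ?_, f⟩
  show run M ev σ t = run M ev τ t
  induction t with
  | zero => rfl
  | succ t ih =>
    rw [run, run, ih (take_le h (by omega)), take_get h (by omega), h2 σ τ t _ h]

open Classical in
theorem amort (A B : Alg M) (σ : List P) (c : ℕ) (I : ℕ → ℕ → Prop) (h0 : I 0 0)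
    (h : ∀ t φ, t < σ.length → I t φ → ∃ ψ, I (t + 1) ψ ∧
      (if Flt A σ t then 1 else 0) + ψ ≤ φ + if Flt B σ t then c else 0) :
    cost A σ ≤ c * cost B σ := by
  have : ∀ t ≤ σ.length, ∃ φ, I t φ ∧ Nat.count (Flt A σ) t + φ ≤ c * Nat.count (Flt B σ) t := by
    intro t ht
    induction t with
    | zero => exact ⟨0, h0, by simp⟩
    | succ t ih =>
      obtain ⟨φ, a, b⟩ := ih (by omega)
      obtain ⟨ψ, a', b'⟩ := h t φ ht a
      refine ⟨ψ, a', ?_⟩
      rw [Nat.count_succ, Nat.count_succ, mul_add]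
      split_ifs at b' ⊢ <;> omega
  obtain ⟨φ, -, b⟩ := this _ le_rfl
  exact le_of_add_le_left b

theorem ratio_le (A B : Alg M) (c : ℕ) (h : ∀ σ, cost A σ ≤ c * cost B σ) :
    ratio A B ≤ (c : EReal) :=
  sInf_le ⟨c, rfl, 0, fun σ => by rw [add_zero]; exact_mod_cast h σ⟩

/-! FIFO -/

noncomputable def fifo (M : Finset P) (σ : List P) : ℕ → List P
  | 0 => M.toList
  | t + 1 => match σ[t]? with
    | none => fifo M σ t
    | some p => if p ∈ fifo M σ t then fifo M σ t else (fifo M σ t).tail ++ [p]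

def W (B : Finset P) : List P → ℕ → ℕ
  | [], _ => 0
  | p :: q, j => (if p ∈ B then 0 else j) + W B q (j + 1)

theorem W_snoc {B : Finset P} {r : P} (h : r ∈ B) (q : List P) (j : ℕ) :
    W B (q ++ [r]) j = W B q j := by
  induction q generalizing j with
  | nil => simp [W, h]
  | cons a q ih => simp [W, ih]

theorem W_mono (B : Finset P) (q : List P) (j : ℕ) : W B q j ≤ W B q (j + 1) := by
  induction q generalizing j with
  | nil => rfl
  | cons a q ih => have := ih (j + 1); simp only [W]; split_ifs <;> omega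

theorem W_lt {B : Finset P} {q : List P} (h : ∃ p ∈ q, p ∉ B) (j : ℕ) :
    W B q j < W B q (j + 1) := by
  induction q generalizing j with
  | nil => simp at h
  | cons a q ih =>
    simp only [W]
    have := W_mono B q (j + 1)
    split_ifs with e
    · have := ih (by simpa [e] using h) (j + 1); omega
    · omega

theorem W_sub {B C : Finset P} {q : List P} (h : ∀ p ∈ q, p ∈ B → p ∈ C) (j : ℕ) :
    W C q j ≤ W B q j := by
  induction q generalizing j with
  | nil => rfl
  | cons a q ih =>
    have := ih (fun p hp => h p (List.mem_cons_of_mem _ hp)) (j + 1)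
    have := h a List.mem_cons_self
    simp only [W]; split_ifs <;> first | omega | tauto

theorem W_erase {B C : Finset P} {z : P} (h : ∀ p ∈ B, p ≠ z → p ∈ C) {q : List P}
    (hq : q.Nodup) (j : ℕ) : W C q (j + 1) ≤ W B q (j + 1) + j + q.length := by
  induction q generalizing j with
  | nil => simp [W]
  | cons a q ih =>
    rw [List.nodup_cons] at hq
    simp only [W, List.length_cons]
    by_cases e : a = z
    · have := W_sub (B := B) (C := C) (q := q) (fun p hp hb => h p hb
        (by rintro rfl; exact hq.1 (e ▸ hp))) (j + 1 + 1)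
      split_ifs <;> omega
    · have := ih hq.2 (j + 1)
      have := fun x => h a x e
      split_ifs <;> first | omega | tauto

open Classical in
theorem upper_k (hM : M.Nonempty) (i : ℕ) :
    ∃ A : Alg M, Look i A ∧ ∀ (B : Alg M) σ, cost A σ ≤ M.card * cost B σ := by
  have inv : ∀ σ t, (fifo M σ t).Nodup ∧ (fifo M σ t).length = M.card := by
    intro σ t
    induction t with
    | zero => exact ⟨M.nodup_toList, M.length_toList⟩
    | succ t ih =>
      rw [fifo]
      split
      · exact ih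
      · split_ifs with e
        · exact ih
        · have := hM.card_pos
          refine ⟨List.nodup_append.2 ⟨ih.1.tail, by simp, fun a ha b hb => ?_⟩, by simp; omega⟩
          rw [List.mem_singleton.1 hb]
          rintro rfl
          exact e (List.mem_of_mem_tail ha)
  have hit : ∀ σ t p, σ[t]? = some p → p ∈ fifo M σ t → fifo M σ (t + 1) = fifo M σ t :=
    fun σ t p h e => by rw [fifo, h]; simp [e]
  have flt : ∀ σ t p, σ[t]? = some p → p ∉ fifo M σ t → ∃ a q, fifo M σ t = a :: q ∧
      fifo M σ (t + 1) = q ++ [p] := fun σ t p h e => by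
    have := hM.card_pos
    obtain ⟨a, q, hq⟩ := List.exists_cons_of_length_pos (l := fifo M σ t)
      (by rw [(inv σ t).2]; exact this)
    exact ⟨a, q, hq, by rw [fifo, h]; simp only [e, if_false]; rw [hq]; rfl⟩
  let A : Alg M := ⟨fun σ t => (fifo M σ t).toFinset, fun σ => M.toList_toFinset,
    fun σ t p h e => by simp only [hit σ t p h (List.mem_toFinset.1 e)], fun σ t p h e => by
      obtain ⟨a, q, h1, h2⟩ := flt σ t p h (by simpa using e)
      have := (inv σ t).1
      rw [h1, List.nodup_cons] at this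
      refine ⟨a, by simp [h1], ?_⟩
      simp only [h1, h2]
      ext x
      simp only [List.toFinset_append, mem_union, List.mem_toFinset, List.mem_singleton,
        mem_insert, mem_erase, List.mem_cons]
      constructor
      · rintro (h | h)
        · exact Or.inr ⟨by rintro rfl; exact this.1 h, Or.inr h⟩
        · simp at h; exact Or.inl h
      · rintro (h | ⟨h, h' | h'⟩)
        · simp [h]
        · exact absurd h' h
        · exact Or.inl h'⟩
  refine ⟨A, fun σ τ t h => ?_, fun B σ => amort A B σ _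
    (fun t φ => φ = W (B.mem σ t) (fifo M σ t) 1) ?_ fun t φ ht h => ⟨_, rfl, ?_⟩⟩
  · show List.toFinset _ = List.toFinset _
    congr 1
    induction t with
    | zero => rfl
    | succ t ih => rw [fifo, fifo, ih (take_le h (by omega)), take_get h (by omega)]
  · have z : ∀ (q : List P) j, (∀ p ∈ q, p ∈ M) → W M q j = 0 := by
      intro q
      induction q with
      | nil => intros; rfl
      | cons a q ih =>
        intro j h
        simp [W, h a List.mem_cons_self, ih _ fun p hp => h p (List.mem_cons_of_mem _ hp)]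
    rw [B.init]
    exact (z _ _ fun p hp => mem_toList.1 hp).symm
  · have hp : σ[t]? = some σ[t] := List.getElem?_eq_getElem ht
    set p := σ[t]
    have s1 : W (B.mem σ (t + 1)) (fifo M σ t) 1 ≤ φ + if Flt B σ t then M.card else 0 := by
      by_cases e : p ∈ B.mem σ t
      · rw [B.hit σ t p hp e, h]; omega
      · obtain ⟨z, -, hz⟩ := B.fault σ t p hp e
        rw [if_pos ⟨p, hp, e⟩, h, ← (inv σ t).2]
        simpa using W_erase (B := B.mem σ t) (C := B.mem σ (t + 1)) (z := z)
          (fun x a b => by simp [hz, a, b]) (inv σ t).1 0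
    refine le_trans ?_ s1
    by_cases e : p ∈ fifo M σ t
    · rw [hit σ t p hp e, if_neg, zero_add]
      rintro ⟨x, x1, x2⟩
      rw [hp, Option.some.injEq] at x1
      exact x2 (List.mem_toFinset.2 (x1 ▸ e))
    · obtain ⟨a, q, h1, h2⟩ := flt σ t p hp e
      have : ∃ x ∈ fifo M σ t, x ∉ B.mem σ (t + 1) := by
        by_contra hh
        push Not at hh
        have : (fifo M σ t).toFinset = B.mem σ (t + 1) := eq_of_subset_of_card_le
          (fun x hx => hh x (List.mem_toFinset.1 hx)) (by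
            rw [card_mem B σ ht, List.toFinset_card_of_nodup (inv σ t).1, (inv σ t).2])
        exact e (List.mem_toFinset.1 (this ▸ req_mem B hp))
      have := W_lt this 0
      rw [h2, W_snoc (req_mem B hp)]
      rw [h1] at this ⊢
      simp only [W, Nat.zero_add] at this ⊢
      split_ifs at this ⊢ <;> omega

/-! the bound through the lookaheads -/

theorem nu_ex (σ : List P) (t : ℕ) (p : P) : ∃ s, t ≤ s ∧ (σ.length ≤ s ∨ σ[s]? = some p) :=
  ⟨max t σ.length, le_max_left _ _, Or.inl (le_max_right _ _)⟩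

/-- time of the next request -/
def nu (σ : List P) (t : ℕ) (p : P) : ℕ := Nat.find (nu_ex σ t p)

theorem nu_spec (σ : List P) (t : ℕ) (p : P) :
    t ≤ nu σ t p ∧ (σ.length ≤ nu σ t p ∨ σ[nu σ t p]? = some p) := Nat.find_spec (nu_ex σ t p)

theorem nu_le {σ : List P} {t s : ℕ} {p : P} (h : t ≤ s) (h' : σ.length ≤ s ∨ σ[s]? = some p) :
    nu σ t p ≤ s := Nat.find_min' _ ⟨h, h'⟩

theorem nu_succ {σ : List P} {t : ℕ} {p r : P} (h : σ[t]? = some r) (e : p ≠ r) :
    nu σ t p = nu σ (t + 1) p := by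
  have a := nu_spec σ t p
  have b := nu_spec σ (t + 1) p
  have ht : t < σ.length := (List.getElem?_eq_some_iff.1 h).1
  refine le_antisymm (nu_le (by omega) b.2) (nu_le ?_ a.2)
  rcases a.1.eq_or_lt with c | c
  · rw [← c, h, Option.some.injEq] at a
    exact absurd (a.2.resolve_left (by omega)).symm e
  · exact c

theorem nu_take (σ : List P) {t n : ℕ} (h : t ≤ n) (p : P) :
    nu (σ.take n) t p = min (nu σ t p) n := by
  have a := nu_spec σ t p
  have b := nu_spec (σ.take n) t p
  have c : nu (σ.take n) t p ≤ n := nu_le h (Or.inl (by simp))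
  refine le_antisymm (le_min ?_ c) ?_
  · by_cases e : nu σ t p < n
    · refine nu_le a.1 (a.2.imp (fun x => by simp; omega) fun x => ?_)
      rwa [List.getElem?_take_of_lt e]
    · omega
  · rcases c.eq_or_lt with e | e
    · omega
    · refine (min_le_left _ _).trans (nu_le b.1 (b.2.imp (fun x => by simp at x; omega) ?_))
      rw [List.getElem?_take_of_lt e]; exact id

theorem upd {H T : Finset P} {π : P → P} {h0 τ0 : P} (w : P → P → ℕ)
    (h1 : ∀ x ∈ H.erase h0, π x ∈ T ∧ π x ≠ τ0)
    (h2 : ∀ x ∈ H.erase h0, ∀ y ∈ H.erase h0, π x = π y → x = y) (h3 : h0 ∈ H → τ0 ∈ T) :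
    ∃ ρ : P → P, (∀ x ∈ H, ρ x ∈ T) ∧ (∀ x ∈ H, ∀ y ∈ H, ρ x = ρ y → x = y) ∧
      ∑ x ∈ H, w x (ρ x) ≤ ∑ x ∈ H.erase h0, w x (π x) + if h0 ∈ H then w h0 τ0 else 0 := by
  refine ⟨Function.update π h0 τ0, fun x hx => ?_, fun x hx y hy e => ?_, ?_⟩
  · by_cases e : x = h0
    · subst e; simpa using h3 hx
    · rw [Function.update_of_ne e]; exact (h1 x (by simp [e, hx])).1
  · by_cases a : x = h0 <;> by_cases b : y = h0
    · rw [a, b]
    · rw [a, Function.update_self, Function.update_of_ne b] at e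
      exact absurd e.symm (h1 y (by simp [b, hy])).2
    · rw [b, Function.update_self, Function.update_of_ne a] at e
      exact absurd e (h1 x (by simp [a, hx])).2
    · rw [Function.update_of_ne a, Function.update_of_ne b] at e
      exact h2 x (by simp [a, hx]) y (by simp [b, hy]) e
  · have : ∑ x ∈ H.erase h0, w x (Function.update π h0 τ0 x) = ∑ x ∈ H.erase h0, w x (π x) :=
      sum_congr rfl fun x hx => by rw [Function.update_of_ne (mem_erase.1 hx).1]
    split_ifs with e
    · rw [← sum_erase_add _ _ e, this, Function.update_self]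
    · rw [← this, erase_eq_of_notMem e, add_zero]

theorem upd' {H T : Finset P} {π : P → P} {h0 : P} (w : P → P → ℕ) (m : ℕ)
    (hc : H.card ≤ T.card) (h1 : ∀ x ∈ H.erase h0, π x ∈ T)
    (h2 : ∀ x ∈ H.erase h0, ∀ y ∈ H.erase h0, π x = π y → x = y) (h3 : ∀ x y, w x y ≤ m) :
    ∃ ρ : P → P, (∀ x ∈ H, ρ x ∈ T) ∧ (∀ x ∈ H, ∀ y ∈ H, ρ x = ρ y → x = y) ∧
      ∑ x ∈ H, w x (ρ x) ≤ ∑ x ∈ H.erase h0, w x (π x) + m := by
  by_cases e : h0 ∈ H
  · have : ((H.erase h0).image π).card < T.card := by
      have := card_image_le (s := H.erase h0) (f := π)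
      have := card_erase_add_one e
      omega
    obtain ⟨τ, t1, t2⟩ := exists_mem_notMem_of_card_lt_card this
    obtain ⟨ρ, a, b, c⟩ := upd (τ0 := τ) w (fun x hx => ⟨h1 x hx, fun e =>
      t2 (mem_image.2 ⟨x, hx, e⟩)⟩) h2 fun _ => t1
    exact ⟨ρ, a, b, c.trans (by rw [if_pos e]; have := h3 h0 τ; omega)⟩
  · rw [erase_eq_of_notMem e] at h1 h2 ⊢
    exact ⟨π, h1, h2, by omega⟩

open Classical in
theorem upper_l (hM : M.Nonempty) {i l : ℕ} (hil : i < l) (B : Alg M) (hB : Look l B) :
    ∃ A : Alg M, Look i A ∧ ∀ σ, cost A σ ≤ (l / (i + 1) + 1) * cost B σ := by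
  obtain ⟨d, rfl⟩ : ∃ d, l = d + i := ⟨l - i, by omega⟩
  have hd : 0 < d := by omega
  have ch : ∀ (τ : List P) (t : ℕ) (X S : Finset P), ∃ e, S.Nonempty → e ∈ S ∧
      ((e ∉ X ∧ ∀ s ≤ t, t + 1 ≤ s + d → τ[s]? ≠ some e) ∨
      ∀ p ∈ S, (p ∈ X ∨ ∃ s ≤ t, t + 1 ≤ s + d ∧ τ[s]? = some p) ∧
        nu τ (t + 1) p ≤ nu τ (t + 1) e) := by
    intro τ t X S
    by_cases hS : S.Nonempty
    · by_cases e : ∃ e ∈ S, e ∉ X ∧ ∀ s ≤ t, t + 1 ≤ s + d → τ[s]? ≠ some e
      · obtain ⟨e, e1, e2⟩ := e
        exact ⟨e, fun _ => ⟨e1, Or.inl e2⟩⟩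
      · obtain ⟨z, z1, z2⟩ := exists_max_image S (nu τ (t + 1)) hS
        push Not at e
        exact ⟨z, fun _ => ⟨z1, Or.inr fun p hp => ⟨or_iff_not_imp_left.2 (e p hp), z2 p hp⟩⟩⟩
    · exact ⟨hM.choose, fun h => absurd h hS⟩
  choose ev hev using ch
  obtain ⟨A, A1, A2⟩ := exists_alg hM i
    (fun σ t S => ev (σ.take (t + 1 + i)) t (B.mem σ (t + 1 - d)) S)
    (fun σ t S h => (hev _ _ _ _ h).1) fun σ τ t S h => by
      have : B.mem σ (t + 1 - d) = B.mem τ (t + 1 - d) := by
        by_cases e : d ≤ t + 1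
        · exact hB _ _ _ (by rwa [show t + 1 - d + (d + i) = t + 1 + i by omega])
        · rw [show t + 1 - d = 0 by omega, B.init, B.init]
      rw [h, this]
  refine ⟨A, A1, fun σ => ?_⟩
  let lam : ℕ → P → ℕ := fun t p => Nat.findGreatest (fun s => p ∈ B.mem σ s) t
  let w : ℕ → P → P → ℕ := fun t h τ =>
    if nu σ t τ ≤ nu σ t h then 0 else (lam t τ + d - nu σ t h + i) / (i + 1)
  refine amort A B σ _ (fun t φ => ∃ π : P → P,
    (∀ x ∈ B.mem σ t \ A.mem σ t, π x ∈ A.mem σ t \ B.mem σ t) ∧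
    (∀ x ∈ B.mem σ t \ A.mem σ t, ∀ y ∈ B.mem σ t \ A.mem σ t, π x = π y → x = y) ∧
    φ = ∑ x ∈ B.mem σ t \ A.mem σ t, (w t x (π x) + 1))
    ⟨id, by simp [A.init, B.init], by simp [A.init, B.init], by simp [A.init, B.init]⟩ ?_
  rintro t φ ht ⟨π, p1, p2, rfl⟩
  have hr : σ[t]? = some σ[t] := List.getElem?_eq_getElem ht
  set r := σ[t]
  have cA := card_mem A σ ht.le
  have cB := card_mem B σ ht
  have rB := req_mem B hr
  set S := A.mem σ t with hS
  set B' := B.mem σ (t + 1) with hB'
  have cc : (B' \ S).card = (S \ B').card := card_sdiff_comm (by omega)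
  have s1 : ∃ ρ : P → P, (∀ x ∈ B' \ S, ρ x ∈ S \ B') ∧
      (∀ x ∈ B' \ S, ∀ y ∈ B' \ S, ρ x = ρ y → x = y) ∧ ∑ x ∈ B' \ S, (w t x (ρ x) + 1) ≤
      ∑ x ∈ B.mem σ t \ S, (w t x (π x) + 1) +
        if Flt B σ t then (d + i) / (i + 1) + 1 else 0 := by
    by_cases e : r ∈ B.mem σ t
    · rw [hB', B.hit σ t r hr e]
      exact ⟨π, p1, p2, by omega⟩
    · rw [if_pos ⟨r, hr, e⟩]
      have sub := mem_sub B hr
      obtain ⟨h0, k1⟩ : ∃ h0, ∀ x ∈ (B' \ S).erase h0, x ∈ B.mem σ t \ S ∧ π x ≠ r := by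
        by_cases a : ∃ h ∈ B.mem σ t \ S, π h = r
        · obtain ⟨h, a1, a2⟩ := a
          refine ⟨h, fun x hx => ?_⟩
          have rS : r ∈ S := (mem_sdiff.1 (a2 ▸ p1 h a1)).1
          simp only [mem_erase, mem_sdiff] at hx
          have : x ∈ B.mem σ t \ S := mem_sdiff.2 ⟨(mem_insert.1 (sub hx.2.1)).resolve_left
            (by rintro rfl; exact hx.2.2 rS), hx.2.2⟩
          exact ⟨this, fun b => hx.1 (p2 x this h a1 (b.trans a2.symm))⟩
        · refine ⟨r, fun x hx => ?_⟩
          simp only [mem_erase, mem_sdiff] at hx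
          have : x ∈ B.mem σ t \ S :=
            mem_sdiff.2 ⟨(mem_insert.1 (sub hx.2.1)).resolve_left hx.1, hx.2.2⟩
          exact ⟨this, fun b => a ⟨x, this, b⟩⟩
      obtain ⟨ρ, a, b, c⟩ := upd' (H := B' \ S) (T := S \ B') (π := π) (h0 := h0)
        (fun x y => w t x y + 1) ((d + i) / (i + 1) + 1) cc.le (fun x hx => by
          have := mem_sdiff.1 (p1 x (k1 x hx).1)
          exact mem_sdiff.2 ⟨this.1, fun b =>
            this.2 ((mem_insert.1 (sub b)).resolve_left (k1 x hx).2)⟩)
        (fun x hx y hy => p2 x (k1 x hx).1 y (k1 y hy).1) fun x y => by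
          have h1 : lam t y ≤ t := Nat.findGreatest_le _
          have h2 := (nu_spec σ t x).1
          simp only [w]
          split_ifs
          · exact Nat.succ_le_succ (Nat.zero_le _)
          · exact Nat.succ_le_succ (Nat.div_le_div_right (by omega))
      exact ⟨ρ, a, b, c.trans (Nat.add_le_add_right
        (sum_le_sum_of_subset fun x hx => (k1 x hx).1) _)⟩
  obtain ⟨ρ, q1, q2, q3⟩ := s1
  have ws : ∀ x y, x ≠ r → y ∉ B' → w (t + 1) x y = w t x y := by
    intro x y a b
    simp only [w, lam]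
    rw [← nu_succ hr a, ← nu_succ hr (show y ≠ r by rintro rfl; exact b rB),
      Nat.findGreatest_of_not b]
  by_cases e : r ∈ S
  · rw [A.hit σ t r hr e]
    refine ⟨_, ⟨ρ, q1, q2, rfl⟩, le_trans (le_of_eq ?_) q3⟩
    rw [if_neg, zero_add]
    · exact sum_congr rfl fun x hx => by
        rw [ws x _ (by rintro rfl; exact (mem_sdiff.1 hx).2 e) (mem_sdiff.1 (q1 x hx)).2]
    · rintro ⟨x, x1, x2⟩
      rw [hr, Option.some.injEq] at x1
      exact x2 (x1 ▸ e)
  have rH : r ∈ B' \ S := mem_sdiff.2 ⟨rB, e⟩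
  obtain ⟨z1, z2⟩ := hev (σ.take (t + 1 + i)) t (B.mem σ (t + 1 - d)) S
    (card_pos.1 (cA ▸ hM.card_pos))
  rw [A2 σ t r hr e, if_pos ⟨r, hr, e⟩]
  set z := ev (σ.take (t + 1 + i)) t (B.mem σ (t + 1 - d)) S
  have tT := mem_sdiff.1 (q1 r rH)
  have nr : nu σ t r = t := le_antisymm (nu_le le_rfl (Or.inr hr)) (nu_spec _ _ _).1
  have nt : t + 1 ≤ nu σ t (ρ r) := by
    rw [nu_succ hr (fun h => tT.2 (by rw [h]; exact rB))]; exact (nu_spec _ _ _).1
  have wr : w t r (ρ r) = (lam t (ρ r) + d - t + i) / (i + 1) := by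
    simp only [w]; rw [if_neg (by omega), nr]
  have fin : ∀ h0, (∀ x ∈ (B' \ insert r (S.erase z)).erase h0, x ∈ (B' \ S).erase r ∧ ρ x ≠ z) →
      (h0 ∈ B' \ insert r (S.erase z) → ρ r ≠ z) →
      (1 + ∑ x ∈ (B' \ insert r (S.erase z)).erase h0, (w t x (ρ x) + 1) +
        (if h0 ∈ B' \ insert r (S.erase z) then w (t + 1) h0 (ρ r) + 1 else 0) ≤
        ∑ x ∈ B' \ S, (w t x (ρ x) + 1)) → ∃ ψ, (∃ π : P → P,
      (∀ x ∈ B' \ insert r (S.erase z), π x ∈ insert r (S.erase z) \ B') ∧
      (∀ x ∈ B' \ insert r (S.erase z), ∀ y ∈ B' \ insert r (S.erase z), π x = π y → x = y) ∧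
      ψ = ∑ x ∈ B' \ insert r (S.erase z), (w (t + 1) x (π x) + 1)) ∧
      1 + ψ ≤ ∑ x ∈ B.mem σ t \ S, (w t x (π x) + 1) +
        if Flt B σ t then (d + i) / (i + 1) + 1 else 0 := by
    intro h0 k1 k2 k3
    obtain ⟨θ, a, b, c⟩ := upd (H := B' \ insert r (S.erase z)) (T := insert r (S.erase z) \ B')
      (π := ρ) (h0 := h0) (τ0 := ρ r) (fun x y => w (t + 1) x y + 1) (fun x hx => by
        obtain ⟨u, v⟩ := k1 x hx
        rw [mem_erase] at u
        have := mem_sdiff.1 (q1 x u.2)
        exact ⟨by simp [this, v], fun b => u.1 (q2 x u.2 r rH b)⟩)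
      (fun x hx y hy => q2 x (mem_of_mem_erase (k1 x hx).1) y (mem_of_mem_erase (k1 y hy).1))
      fun h => by simp [tT, k2 h]
    refine ⟨_, ⟨θ, a, b, rfl⟩, le_trans ?_ (k3.trans q3)⟩
    rw [add_assoc]
    refine Nat.add_le_add_left (c.trans (le_of_eq ?_)) _
    congr 1
    refine sum_congr rfl fun x hx => ?_
    have u := mem_erase.1 (k1 x hx).1
    rw [ws x _ u.1 (mem_sdiff.1 (q1 x u.2)).2]
  have sp := sum_erase_add (B' \ S) (fun x => w t x (ρ x) + 1) rH
  by_cases zB : z ∈ B'
  · have k1 : ∀ x ∈ (B' \ insert r (S.erase z)).erase z, x ∈ (B' \ S).erase r := fun x hx => by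
      simp only [mem_erase, mem_sdiff, mem_insert, not_or, not_and] at hx ⊢
      exact ⟨hx.2.2.1, hx.2.1, hx.2.2.2 hx.1⟩
    refine fin z (fun x hx => ⟨k1 x hx, fun b =>
      (mem_sdiff.1 (q1 x (mem_of_mem_erase (k1 x hx)))).2 (b ▸ zB)⟩)
      (fun _ b => tT.2 (b ▸ zB)) ?_
    have := sum_le_sum_of_subset (f := fun x => w t x (ρ x) + 1) k1
    suffices w (t + 1) z (ρ r) + 1 ≤ w t r (ρ r) by
      split_ifs <;> omega
    have old : ∀ p, (p ∉ B.mem σ (t + 1 - d) ∧ ∀ s ≤ t, t + 1 ≤ s + d →
        (σ.take (t + 1 + i))[s]? ≠ some p) → p ∉ B' := by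
      rintro p ⟨a, b⟩
      have : ∀ s, t + 1 - d ≤ s → s ≤ t + 1 → p ∉ B.mem σ s := by
        intro s h1 h2
        induction h1 with
        | refl => exact a
        | @step s h1 ih =>
          have hs : σ[s]? = some σ[s] := List.getElem?_eq_getElem (by omega)
          intro c
          rcases mem_insert.1 (mem_sub B hs c) with c | c
          · refine b s (by omega) (by have : t + 1 - d ≤ s := h1; omega) ?_
            rw [List.getElem?_take_of_lt (by omega), hs, c]
          · exact ih (by omega) c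
      exact this _ (by omega) le_rfl
    obtain ⟨a, b⟩ := (z2.resolve_left fun a => old z a zB) _ tT.1
    rw [nu_take σ (by omega), nu_take σ (by omega)] at b
    have c : t + 1 ≤ lam t (ρ r) + d := by
      rcases a with a | ⟨s, s1, s2, s3⟩
      · have : t + 1 - d ≤ lam t (ρ r) := Nat.le_findGreatest (by omega) a
        omega
      · rw [List.getElem?_take_of_lt (by omega)] at s3
        have : s ≠ t := by
          rintro rfl
          rw [hr, Option.some.injEq] at s3
          exact tT.2 (s3 ▸ rB)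
        have : s + 1 ≤ lam t (ρ r) := Nat.le_findGreatest (by omega) (req_mem B s3)
        omega
    have l1 : lam (t + 1) (ρ r) = lam t (ρ r) := Nat.findGreatest_of_not tT.2
    rw [wr]
    simp only [w]
    split_ifs with f
    · exact (Nat.le_div_iff_mul_le (by omega)).2 (by omega)
    · rw [l1]
      by_cases g : nu σ (t + 1) z ≤ lam t (ρ r) + d
      · rw [← Nat.add_div_right _ (by omega)]
        exact Nat.div_le_div_right (by omega)
      · rw [show lam t (ρ r) + d - nu σ (t + 1) z = 0 by omega, Nat.div_eq_of_lt (by omega)]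
        exact (Nat.le_div_iff_mul_le (by omega)).2 (by omega)
  · have k0 : B' \ insert r (S.erase z) = (B' \ S).erase r := by
      ext x
      simp only [mem_erase, mem_sdiff, mem_insert, not_or, not_and]
      exact ⟨fun h => ⟨h.2.1, h.1, h.2.2 (by rintro rfl; exact zB h.1)⟩,
        fun h => ⟨h.2.1, h.1, fun _ => h.2.2⟩⟩
    by_cases a : ∃ h ∈ (B' \ S).erase r, ρ h = z
    · obtain ⟨h, a1, a2⟩ := a
      have a3 := mem_erase.1 a1
      refine fin h (fun x hx => ?_) (fun _ b => a3.1 (q2 h a3.2 r rH (a2.trans b.symm))) ?_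
      · rw [k0] at hx
        have := mem_erase.1 hx
        exact ⟨this.2, fun b => this.1 (q2 x (mem_of_mem_erase this.2) h a3.2 (b.trans a2.symm))⟩
      · rw [k0, if_pos a1, ws h _ a3.1 tT.2]
        have := sum_erase_add _ (fun x => w t x (ρ x) + 1) a1
        suffices w t h (ρ r) ≤ w t r (ρ r) by omega
        rw [wr]
        have := (nu_spec σ t h).1
        simp only [w]
        split_ifs
        · exact Nat.zero_le _
        · exact Nat.div_le_div_right (by omega)
    · have a1 : r ∉ B' \ insert r (S.erase z) := by simp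
      refine fin r (fun x hx => ?_) (fun b => absurd b a1) ?_
      · rw [erase_eq_of_notMem a1, k0] at hx
        exact ⟨hx, fun b => a ⟨x, hx, b⟩⟩
      · rw [if_neg a1, erase_eq_of_notMem a1, k0]
        omega

/-! the lower bound -/

def blk (i : ℕ) (p : ℕ → P) (N : ℕ) : List P := (List.range (N * (i + 1))).map fun s => p (s / (i + 1))

omit [DecidableEq P] in
theorem blk_get (i : ℕ) (p : ℕ → P) {N s : ℕ} (h : s < N * (i + 1)) :
    (blk i p N)[s]? = some (p (s / (i + 1))) := by simp [blk, h]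

theorem mem_univ_sub (A : Alg M) {S : Finset P} (hS : M ⊆ S) (i : ℕ) {p : ℕ → P}
    (hp : ∀ j, p j ∈ S) {N t : ℕ} (h : t ≤ N * (i + 1)) : A.mem (blk i p N) t ⊆ S := by
  induction t with
  | zero => rwa [A.init]
  | succ t ih => exact (mem_sub A (blk_get i p h)).trans (insert_subset (hp _) (ih (by omega)))

theorem adversary {x : P} (hx : x ∉ M) (i : ℕ) (A : Alg M) (hA : Look i A) (N : ℕ) :
    ∃ p : ℕ → P, (∀ j, p j ∈ insert x M) ∧ N ≤ cost A (blk i p (N + 1)) := by
  classical
  obtain ⟨p, p1, p2⟩ : ∃ p : ℕ → P, (∀ j, p j ∈ insert x M) ∧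
      ∀ j < N, p (j + 1) ∉ A.mem (blk i p (j + 1)) (j * (i + 1) + 1) := by
    induction N with
    | zero => exact ⟨fun _ => x, by simp, by simp⟩
    | succ N ih =>
      obtain ⟨p, p1, p2⟩ := ih
      have hl : N * (i + 1) + 1 ≤ (N + 1) * (i + 1) := by nlinarith
      obtain ⟨y, y1, y2⟩ := exists_mem_notMem_of_card_lt_card
        (s := A.mem (blk i p (N + 1)) (N * (i + 1) + 1)) (t := insert x M) (by
          rw [card_mem A _ (by simpa [blk] using hl), card_insert_of_notMem hx]; omega)
      have e : ∀ j ≤ N, blk i (Function.update p (N + 1) y) (j + 1) = blk i p (j + 1) :=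
        fun j hj => List.map_congr_left fun s hs => Function.update_of_ne (by
          have := (Nat.div_lt_iff_lt_mul (by omega)).2 (List.mem_range.1 hs); omega) _ _
      refine ⟨Function.update p (N + 1) y, fun j => ?_, fun j hj => ?_⟩
      · by_cases a : j = N + 1
        · rw [a, Function.update_self]; exact y1
        · rw [Function.update_of_ne a]; exact p1 j
      · rw [e j (by omega)]
        rcases Nat.lt_succ_iff_lt_or_eq.1 hj with a | rfl
        · rw [Function.update_of_ne (by omega)]; exact p2 j a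
        · rwa [Function.update_self]
  refine ⟨p, p1, ?_⟩
  have key : ∀ j < N, Flt A (blk i p (N + 1)) ((j + 1) * (i + 1)) := by
    intro j hj
    have hl : (j + 1) * (i + 1) < (N + 1) * (i + 1) := by nlinarith
    have e : (j + 1) * (i + 1) = j * (i + 1) + 1 + i := by ring
    refine ⟨_, blk_get i p hl, ?_⟩
    rw [Nat.mul_div_cancel _ (by omega)]
    have s : ∀ a ≤ i, A.mem (blk i p (N + 1)) (j * (i + 1) + 1 + a) =
        A.mem (blk i p (N + 1)) (j * (i + 1) + 1) := by
      intro a ha
      induction a with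
      | zero => rfl
      | succ a ih =>
        have g : ∀ b ≤ i, (blk i p (N + 1))[j * (i + 1) + b]? = some (p j) := fun b hb => by
          rw [blk_get i p (by omega), mul_comm, Nat.mul_add_div (by omega),
            Nat.div_eq_of_lt (by omega), add_zero]
        rw [← ih (by omega), ← add_assoc]
        refine A.hit _ _ (p j) (by rw [add_assoc, add_comm 1]; exact g _ ha) ?_
        rw [ih (by omega)]
        exact req_mem A (g 0 (by omega))
    rw [e, s i le_rfl, hA _ (blk i p (j + 1)) _ (by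
      rw [← e]; simp [blk, ← List.map_take, List.take_range, hl.le])]
    exact p2 j hj
  unfold cost
  rw [Nat.count_eq_card_filter_range]
  conv_lhs => rw [← card_range N]
  refine card_le_card_of_injOn (fun j => (j + 1) * (i + 1)) (fun j hj => ?_) fun a _ b _ h => ?_
  · have hj : j < N := by simpa using hj
    simp only [coe_filter, mem_range, Set.mem_ofPred_eq]
    exact ⟨by simp only [blk, List.length_map, List.length_range]; nlinarith, key j hj⟩
  · simpa using h

theorem lower {x : P} (hx : x ∉ M) {i l n : ℕ} (hn : n < M.card) (hl : n * (i + 1) ≤ l) :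
    ∃ B : Alg M, Look l B ∧ ∀ p : ℕ → P, (∀ j, p j ∈ insert x M) → ∀ N,
      cost B (blk i p N) ≤ N / (n + 1) + 1 := by
  classical
  have hM : M.Nonempty := card_pos.1 (by omega)
  have ch : ∀ (τ : List P) (t : ℕ) (S : Finset P), ∃ e, (S.Nonempty → e ∈ S) ∧
      (n < S.card → ∀ a < n, τ[t + (a + 1) * (i + 1)]? ≠ some e) := by
    intro τ t S
    by_cases h : n < S.card
    · obtain ⟨e, e1, e2⟩ := exists_mem_notMem_of_card_lt_card
        (s := (range n).image fun a => τ[t + (a + 1) * (i + 1)]?.getD x) (t := S)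
        (card_image_le.trans_lt (by simpa))
      exact ⟨e, fun _ => e1, fun _ a ha b => e2 (mem_image.2 ⟨a, mem_range.2 ha, by simp [b]⟩)⟩
    · by_cases g : S.Nonempty
      · exact ⟨g.choose, fun _ => g.choose_spec, fun a => absurd a h⟩
      · exact ⟨x, fun a => absurd a g, fun a => absurd a h⟩
  choose ev e1 e2 using ch
  obtain ⟨B, B1, B2⟩ := exists_alg hM l (fun σ t S => ev (σ.take (t + 1 + l)) t S)
    (fun σ t S h => e1 _ _ _ h) fun σ τ t S h => by rw [h]
  refine ⟨B, B1, fun p hp N => ?_⟩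
  have len : (blk i p N).length = N * (i + 1) := by simp [blk]
  have key : ∀ t s, Flt B (blk i p N) t → t < s → s < N * (i + 1) → s < t + (n + 1) * (i + 1) →
      ¬ Flt B (blk i p N) s := by
    rintro t s ⟨q, q1, q2⟩ h1 h2 h3
    have g := blk_get i p (h1.trans h2)
    obtain rfl : p (t / (i + 1)) = q := Option.some.inj (g.symm.trans q1)
    have t0 : t % (i + 1) = 0 := by
      by_contra hh
      obtain ⟨u, rfl⟩ : ∃ u, t = u + 1 := ⟨t - 1, by
        rcases t with _ | t
        · simp at hh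
        · rfl⟩
      have := req_mem B (blk_get i p (show u < N * (i + 1) by omega))
      rw [← Nat.succ_div_of_not_dvd (fun d => hh (Nat.mod_eq_zero_of_dvd d))] at this
      exact q2 this
    obtain ⟨j, rfl⟩ := Nat.dvd_of_mod_eq_zero t0
    have cS := card_mem B (blk i p N) (t := (i + 1) * j) (by omega)
    have m1 := B2 _ _ _ q1 q2
    set z := ev ((blk i p N).take ((i + 1) * j + 1 + l)) ((i + 1) * j) (B.mem (blk i p N) ((i + 1) * j))
    have zS : z ∈ B.mem (blk i p N) ((i + 1) * j) := e1 _ _ _ (card_pos.1 (by omega))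
    have full : ∀ y ∈ insert x M, y ≠ z → y ∈ B.mem (blk i p N) ((i + 1) * j + 1) := by
      intro y hy hz
      have : insert (p ((i + 1) * j / (i + 1))) (B.mem (blk i p N) ((i + 1) * j)) = insert x M :=
        eq_of_subset_of_card_le (insert_subset (hp _)
          (mem_univ_sub B (subset_insert _ _) i hp (by omega))) (by
            rw [card_insert_of_notMem hx, card_insert_of_notMem q2, cS])
      rw [← this] at hy
      rw [m1]
      simpa [hz] using hy
    have nz : ∀ u, (i + 1) * j < u → u ≤ s → p (u / (i + 1)) ≠ z := by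
      intro u u1 u2 b
      have a1 : j ≤ u / (i + 1) := (Nat.le_div_iff_mul_le (by omega)).2 (by nlinarith)
      have a2 : u / (i + 1) < j + (n + 1) := (Nat.div_lt_iff_lt_mul (by omega)).2 (by nlinarith)
      have a3 := Nat.div_mul_le_self u (i + 1)
      rcases a1.eq_or_lt with a | a
      · rw [Nat.mul_div_cancel_left _ (by omega), show p j = z by rw [a]; exact b] at q2
        exact q2 zS
      · obtain ⟨c, hc⟩ : ∃ c, u / (i + 1) = j + (c + 1) := ⟨u / (i + 1) - j - 1, by omega⟩
        have e : (i + 1) * j + (c + 1) * (i + 1) = u / (i + 1) * (i + 1) := by rw [hc]; ring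
        refine e2 ((blk i p N).take ((i + 1) * j + 1 + l)) ((i + 1) * j) _ (cS ▸ hn) c
          (by omega) ?_
        have : (c + 1) * (i + 1) ≤ n * (i + 1) := Nat.mul_le_mul_right _ (by omega)
        rw [List.getElem?_take_of_lt (by omega), e, blk_get i p (by omega),
          Nat.mul_div_cancel _ (by omega), b]
    have st : ∀ u, (i + 1) * j + 1 ≤ u → u ≤ s →
        B.mem (blk i p N) u = B.mem (blk i p N) ((i + 1) * j + 1) := by
      intro u u1 u2
      induction u1 with
      | refl => rfl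
      | @step u u1 ih =>
        have u1 : (i + 1) * j + 1 ≤ u := u1
        rw [B.hit _ _ _ (blk_get i p (by omega)), ih (by omega)]
        rw [ih (by omega)]
        exact full _ (hp _) (nz u u1 (by omega))
    rintro ⟨y, y1, y2⟩
    rw [blk_get i p h2, Option.some.injEq] at y1
    rw [st s h1 le_rfl, ← y1] at y2
    exact y2 (full _ (hp _) (nz s h1 le_rfl))
  unfold cost
  rw [Nat.count_eq_card_filter_range, len, ← card_range (N / (n + 1) + 1)]
  have D : 0 < (n + 1) * (i + 1) := by positivity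
  refine card_le_card_of_injOn (fun t => t / ((n + 1) * (i + 1))) (fun t ht => ?_) ?_
  · simp only [coe_filter, mem_range, Set.mem_ofPred_eq, coe_range, Set.mem_Iio] at ht ⊢
    rw [← Nat.mul_div_mul_right N (n + 1) (show 0 < i + 1 by omega)]
    exact Nat.lt_succ_of_le (Nat.div_le_div_right ht.1.le)
  · have : ∀ a b, a < b → Flt B (blk i p N) a → b < N * (i + 1) → Flt B (blk i p N) b →
        a / ((n + 1) * (i + 1)) ≠ b / ((n + 1) * (i + 1)) := by
      intro a b h1 h2 h3 h4 h5
      refine key a b h2 h1 h3 ?_ h4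
      have := Nat.div_mul_le_self a ((n + 1) * (i + 1))
      have := Nat.lt_div_mul_add (a := b) D
      rw [← h5] at this
      omega
    intro a ha b hb h
    simp only [coe_filter, mem_range, Set.mem_ofPred_eq] at ha hb
    rcases lt_trichotomy a b with c | c | c
    · exact absurd h (this a b c ha.2 hb.1 hb.2)
    · exact c
    · exact absurd h.symm (this b a c hb.2 ha.1 ha.2)

theorem result (P : Type) [DecidableEq P] (k : ℕ) (M : Finset P) (hk : 1 ≤ k) (hM : M.card = k)
    (hP : ∃ x, x ∉ M) (i l : ℕ) (hil : i < l) :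
    comp M i l = ((min k (l / (i + 1) + 1) : ℕ) : EReal) := by
  have ne : M.Nonempty := card_pos.1 (by omega)
  refine le_antisymm (iSup_le fun B => ?_) ?_
  · rcases le_total k (l / (i + 1) + 1) with h | h
    · obtain ⟨A, A1, A2⟩ := upper_k ne i
      rw [min_eq_left h]
      exact iInf_le_of_le ⟨A, A1⟩ (ratio_le _ _ _ (hM ▸ A2 B.1))
    · obtain ⟨A, A1, A2⟩ := upper_l ne hil B.1 B.2
      rw [min_eq_right h]
      exact iInf_le_of_le ⟨A, A1⟩ (ratio_le _ _ _ A2)
  · obtain ⟨x, hx⟩ := hP
    obtain ⟨n, hn⟩ : ∃ n, min k (l / (i + 1) + 1) = n + 1 :=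
      ⟨min k (l / (i + 1) + 1) - 1, by
        have : 1 ≤ min k (l / (i + 1) + 1) := le_min hk (Nat.le_add_left _ _); omega⟩
    have h1 := min_le_left k (l / (i + 1) + 1)
    have h2 := min_le_right k (l / (i + 1) + 1)
    obtain ⟨B, B1, B2⟩ := lower hx (i := i) (l := l) (n := n) (by omega)
      ((Nat.le_div_iff_mul_le (by omega)).1 (by omega))
    refine le_iSup_of_le ⟨B, B1⟩ (le_iInf fun A => le_sInf ?_)
    rintro _ ⟨c, rfl, b, hb⟩
    rw [hn, ← EReal.coe_natCast, EReal.coe_le_coe_iff]
    by_contra hc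
    push Not at hc
    have hc' : max c 0 < ((n + 1 : ℕ) : ℝ) := max_lt hc (by positivity)
    obtain ⟨T, hT⟩ := exists_nat_gt ((2 * max c 0 + b) / ((n + 1 : ℕ) - max c 0 : ℝ))
    rw [div_lt_iff₀ (by linarith)] at hT
    obtain ⟨p, p1, p2⟩ := adversary hx i A.1 A.2 ((n + 1) * T + n)
    have p3 := B2 p p1 ((n + 1) * T + n + 1)
    rw [show (n + 1) * T + n + 1 = (n + 1) * (T + 1) by ring] at p2 p3
    rw [Nat.mul_div_cancel_left _ (by omega)] at p3
    have p4 := hb (blk i p ((n + 1) * (T + 1)))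
    have q2 : (((n + 1) * T + n : ℕ) : ℝ) ≤ _ := Nat.cast_le.2 p2
    have q3 : _ ≤ ((T + 1 + 1 : ℕ) : ℝ) := Nat.cast_le.2 p3
    have q4 := mul_le_mul (le_max_left c 0) q3 (Nat.cast_nonneg _) (le_max_right c 0)
    push_cast at *
    have : (0 : ℝ) ≤ n := Nat.cast_nonneg _
    nlinarith

end Pool.Agent.Results.MP_9bbf37_lc.Formula
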